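import Pool.Agent.H64.FTM.Targets

/-!
# LIN: a subspace with trivial orthogonal complement is everything, up to the radical
-/

set_option autoImplicit false

open Matrix Pool.Agent.H64.CC Pool.Agent.H2.NL Pool.Agent.H2.KM Pool.Agent.H64.EV Pool.Agent.H64.FTM
open Pool.Agent.H64.EK hiding kap

namespace Pool.Agent.H62.FTM

/-- LIN -/
theorem pf_LIN : T_LIN := by
  classical
  intro K _ _ Z _ _ _ _ _ B X Y S hSY hrat hort y hy
  obtain ⟨t, htX, hspan⟩ := (Submodule.fg_span_iff_fg_span_finset_subset (R := K) (X : Set Z)).1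
    (IsNoetherian.noetherian _)
  -- the scalars
  have hsm : ∀ (q : ℚ) (z : Z), q • z = (q : K) • z := by
    intro q z
    have h1 : q • z = (q • (1 : K)) • z := by rw [smul_assoc, one_smul]
    rw [h1]
    congr 1
    rw [Rat.smul_def, mul_one]
  -- the space of the values on `S`
  let VS : Submodule ℚ (t → ℚ) :=
    { carrier := {v | ∃ s ∈ S, ∀ i : t, B i s = (v i : K)}
      add_mem' := by
        rintro v v' ⟨s, hs, h⟩ ⟨s', hs', h'⟩
        refine ⟨s + s', S.add_mem hs hs', fun i => ?_⟩
        rw [map_add, h, h', Pi.add_apply, Rat.cast_add]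
      zero_mem' := ⟨0, S.zero_mem, fun i => by simp⟩
      smul_mem' := by
        rintro q v ⟨s, hs, h⟩
        refine ⟨q • s, S.smul_mem q hs, fun i => ?_⟩
        rw [hsm, map_smul, h, Pi.smul_apply, smul_eq_mul, smul_eq_mul, Rat.cast_mul] }
  have hval : ∀ y ∈ Y, ∃ v : t → ℚ, ∀ i : t, B i y = (v i : K) := by
    intro y hy
    choose v hv using fun i : t => hrat i (htX i.2) y hy
    exact ⟨v, hv⟩
  obtain ⟨v, hv⟩ := hval y hy
  have key : v ∈ VS := by
    by_contra hcon
    obtain ⟨f, hf, hker⟩ := Submodule.exists_le_ker_of_notMem hcon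
    -- the class
    let x : Z := ∑ i : t, (f fun j => if i = j then 1 else 0) • (i : Z)
    have hx : x ∈ X := X.sum_mem fun i _ => X.smul_mem _ (htX i.2)
    have hBx : ∀ (z : Z) (u : t → ℚ), (∀ i : t, B i z = (u i : K)) → B x z = ((f u : ℚ) : K) := by
      intro z u hu
      change B (∑ i : t, (f fun j => if i = j then 1 else 0) • (i : Z)) z = _
      rw [map_sum, LinearMap.sum_apply, LinearMap.pi_apply_eq_sum_univ f u, Rat.cast_sum]
      refine Finset.sum_congr rfl fun i _ => ?_
      rw [hsm, map_smul, LinearMap.smul_apply, hu, smul_eq_mul, smul_eq_mul, Rat.cast_mul, mul_comm]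
    have h1 : B x y = 0 := by
      refine hort x hx (fun s hs => ?_) y hy
      obtain ⟨u, hu⟩ := hval s (hSY hs)
      rw [hBx s u hu]
      have h2 : u ∈ VS := ⟨s, hs, hu⟩
      have h3 := hker h2
      rw [LinearMap.mem_ker] at h3
      rw [h3, Rat.cast_zero]
    rw [hBx y v hv] at h1
    exact hf (by exact_mod_cast h1)
  obtain ⟨s, hs, hvs⟩ := key
  refine ⟨s, hs, fun x hx => ?_⟩
  have hx' : x ∈ Submodule.span K (t : Set Z) := by
    rw [← hspan]
    exact Submodule.subset_span hx
  have hle : Submodule.span K (t : Set Z) ≤ LinearMap.ker (B.flip (y - s)) := by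
    rw [Submodule.span_le]
    intro i hi
    have h1 := hv ⟨i, hi⟩
    have h2 := hvs ⟨i, hi⟩
    simp only at h1 h2
    rw [SetLike.mem_coe, LinearMap.mem_ker, LinearMap.flip_apply, map_sub, h1, h2, sub_self]
  have := hle hx'
  rw [LinearMap.mem_ker, LinearMap.flip_apply] at this
  exact this

end Pool.Agent.H62.FTM
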