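import Pool.Agent.H64.FTM.Targets

/-!
# STA: all star sums of transpositions act as the same scalar
-/

set_option autoImplicit false

open Matrix Pool.Agent.H64.CC Pool.Agent.H2.NL Pool.Agent.H2.KM Pool.Agent.H64.EV Pool.Agent.H64.FTM
open Pool.Agent.H64.EK hiding kap

namespace Pool.Agent.H62.FTM.STA

variable {α : Type} [Fintype α] [DecidableEq α]

theorem mem_HL {L : Finset α} {σ : Equiv.Perm α} : σ ∈ HL L ↔ ∀ i, i ∉ L → σ i = i := by
  unfold HL
  rw [Finset.mem_filter]
  exact ⟨fun h => h.2, fun h => ⟨Finset.mem_univ _, h⟩⟩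

theorem HL_empty : HL (∅ : Finset α) = {1} := by
  ext σ
  rw [mem_HL, Finset.mem_singleton]
  constructor
  · intro h
    ext i
    exact h i (Finset.notMem_empty i)
  · rintro rfl i _
    rfl

/-- a permutation in `HL L` preserves `L` -/
theorem HL_mem {L : Finset α} {σ : Equiv.Perm α} (h : σ ∈ HL L) {i : α} (hi : i ∈ L) :
    σ i ∈ L := by
  by_contra hcon
  have h1 := mem_HL.1 h (σ i) hcon
  have h2 := σ.injective h1
  rw [h2] at hcon
  exact hcon hi

variable {K : Type} [Field K] {M : Type} [AddCommGroup M] [Module K M]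
  (ρ : Equiv.Perm α →* Module.End K M)

/-- The sum over the permutations in `HL L`. -/
def SS (L : Finset α) (y : M) : M := ∑ σ ∈ HL L, ρ σ y

theorem SS_empty (y : M) : SS ρ ∅ y = y := by
  unfold SS
  rw [HL_empty, Finset.sum_singleton, map_one]
  rfl

theorem SS_insert (L : Finset α) (j : α) (hj : j ∉ L) (y : M) :
    SS ρ (insert j L) y = ∑ i ∈ insert j L, ρ (Equiv.swap i j) (SS ρ L y) := by
  have h1 : ∑ i ∈ insert j L, ρ (Equiv.swap i j) (SS ρ L y) =
      ∑ p ∈ (insert j L) ×ˢ HL L, ρ (Equiv.swap p.1 j * p.2) y := by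
    rw [Finset.sum_product]
    refine Finset.sum_congr rfl fun i _ => ?_
    unfold SS
    rw [map_sum]
    refine Finset.sum_congr rfl fun σ _ => ?_
    rw [map_mul]
    rfl
  rw [h1]
  unfold SS
  symm
  refine Finset.sum_nbij' (fun p => Equiv.swap p.1 j * p.2)
    (fun τ => (τ j, Equiv.swap (τ j) j * τ)) ?_ ?_ ?_ ?_ ?_
  · rintro ⟨i, σ⟩ hp
    obtain ⟨hi, hσ⟩ := Finset.mem_product.1 hp
    simp only at hi hσ
    rw [mem_HL]
    intro k hk
    rw [Finset.mem_insert, not_or] at hk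
    change Equiv.swap i j (σ k) = k
    rw [mem_HL.1 hσ k hk.2]
    refine Equiv.swap_apply_of_ne_of_ne ?_ hk.1
    rintro rfl
    rcases Finset.mem_insert.1 hi with h | h
    · exact hk.1 h
    · exact hk.2 h
  · intro τ hτ
    rw [Finset.mem_product]
    refine ⟨HL_mem hτ (Finset.mem_insert_self _ _), ?_⟩
    rw [mem_HL]
    intro k hk
    change Equiv.swap (τ j) j (τ k) = k
    by_cases hkj : k = j
    · rw [hkj, Equiv.swap_apply_left]
    · have h2 : τ k = k := mem_HL.1 hτ k (by rw [Finset.mem_insert, not_or]; exact ⟨hkj, hk⟩)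
      rw [h2]
      refine Equiv.swap_apply_of_ne_of_ne ?_ hkj
      intro h3
      rw [← h2] at h3
      exact hkj (τ.injective h3)
  · rintro ⟨i, σ⟩ hp
    obtain ⟨hi, hσ⟩ := Finset.mem_product.1 hp
    simp only at hi hσ
    have h2 : (Equiv.swap i j * σ) j = i := by
      change Equiv.swap i j (σ j) = i
      rw [mem_HL.1 hσ j hj, Equiv.swap_apply_right]
    simp only [h2]
    rw [← mul_assoc, Equiv.swap_mul_self, one_mul]
  · intro τ _
    simp only
    rw [← mul_assoc, Equiv.swap_mul_self, one_mul]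
  · intro p _
    rfl

/-- a permutation in `HL L` fixes the sum -/
theorem SS_fix (L : Finset α) (g : Equiv.Perm α) (hg : g ∈ HL L) (y : M) :
    ρ g (SS ρ L y) = SS ρ L y := by
  unfold SS
  rw [map_sum]
  refine Finset.sum_nbij' (fun σ => g * σ) (fun σ => g⁻¹ * σ) ?_ ?_ ?_ ?_ ?_
  · intro σ hσ
    rw [mem_HL]
    intro k hk
    change g (σ k) = k
    rw [mem_HL.1 hσ k hk, mem_HL.1 hg k hk]
  · intro σ hσ
    rw [mem_HL]
    intro k hk
    change g⁻¹ (σ k) = k
    rw [mem_HL.1 hσ k hk, Equiv.Perm.inv_eq_iff_eq, mem_HL.1 hg k hk]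
  · intro σ _
    simp
  · intro σ _
    simp
  · intro σ _
    rw [map_mul]
    rfl

theorem swap_mem (L : Finset α) (i j : α) (hi : i ∈ L) (hj : j ∈ L) : Equiv.swap i j ∈ HL L := by
  rw [mem_HL]
  intro k hk
  refine Equiv.swap_apply_of_ne_of_ne ?_ ?_
  · rintro rfl
    exact hk hi
  · rintro rfl
    exact hk hj

/-- the sum of the stars of `L` commutes with the sum over `HL L` -/
theorem SS_comm (L : Finset α) (x : M) :
    ∑ j ∈ L, ∑ i ∈ Finset.univ.erase j, ρ (Equiv.swap i j) (SS ρ L x) =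
      SS ρ L (∑ j ∈ L, ∑ i ∈ Finset.univ.erase j, ρ (Equiv.swap i j) x) := by
  have h1 : ∀ σ ∈ HL L, ∑ j ∈ L, ∑ i ∈ Finset.univ.erase j, ρ (Equiv.swap i j) (ρ σ x) =
      ρ σ (∑ j ∈ L, ∑ i ∈ Finset.univ.erase j, ρ (Equiv.swap i j) x) := by
    intro σ hσ
    rw [map_sum]
    symm
    refine Finset.sum_nbij' (fun j => σ j) (fun j => σ⁻¹ j) ?_ ?_ ?_ ?_ ?_
    · intro j hj
      exact HL_mem hσ hj
    · intro j hj
      by_contra hcon
      have h2 := mem_HL.1 hσ _ hcon
      rw [show σ (σ⁻¹ j) = j from σ.apply_symm_apply j] at h2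
      rw [← h2] at hcon
      exact hcon hj
    · intro j _
      simp
    · intro j _
      simp
    · intro j _
      rw [map_sum]
      refine Finset.sum_nbij' (fun i => σ i) (fun i => σ⁻¹ i) ?_ ?_ ?_ ?_ ?_
      · intro i hi
        rw [Finset.mem_erase] at hi ⊢
        exact ⟨fun h => hi.1 (σ.injective h), Finset.mem_univ _⟩
      · intro i hi
        rw [Finset.mem_erase] at hi ⊢
        refine ⟨fun h => hi.1 ?_, Finset.mem_univ _⟩
        rw [← h]
        exact (σ.apply_symm_apply i).symm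
      · intro i _
        simp
      · intro i _
        simp
      · intro i _
        change (ρ σ * ρ (Equiv.swap i j)) x = (ρ (Equiv.swap (σ i) (σ j)) * ρ σ) x
        rw [← map_mul, ← map_mul]
        congr 2
        rw [Equiv.mul_swap_eq_swap_mul]
  have h2 : ∀ y : M, SS ρ L y = ∑ σ ∈ HL L, ρ σ y := fun _ => rfl
  rw [h2 (∑ j ∈ L, ∑ i ∈ Finset.univ.erase j, ρ (Equiv.swap i j) x), ← Finset.sum_congr rfl h1,
    Finset.sum_comm]
  refine Finset.sum_congr rfl fun j _ => ?_
  rw [Finset.sum_comm]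
  refine Finset.sum_congr rfl fun i _ => ?_
  rw [h2, map_sum]

theorem SS_mem (L : Finset α) (R : Submodule K M) (hR : ∀ g, ∀ v ∈ R, ρ g v ∈ R) {v : M}
    (hv : v ∈ R) : SS ρ L v ∈ R :=
  R.sum_mem fun σ _ => hR σ v hv

theorem SS_sub (L : Finset α) (v w : M) : SS ρ L (v - w) = SS ρ L v - SS ρ L w := by
  unfold SS
  rw [← Finset.sum_sub_distrib]
  exact Finset.sum_congr rfl fun σ _ => map_sub _ _ _

theorem SS_smul (L : Finset α) (a : K) (v : M) : SS ρ L (a • v) = a • SS ρ L v := by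
  unfold SS
  rw [Finset.smul_sum]
  exact Finset.sum_congr rfl fun σ _ => map_smul _ _ _

end Pool.Agent.H62.FTM.STA

namespace Pool.Agent.H62.FTM

open STA

/-- STA -/
theorem pf_STA : T_STA := by
  intro K _ _ α _ _ M _ _ ρ R hR x c n hstar hvan hα hx
  let P : ℕ → Prop := fun m => ∃ L : Finset α, L.card = m ∧ SS ρ L x ∉ R
  have hP1 : P 1 := by
    obtain ⟨j⟩ := Fintype.card_pos_iff.1 hα
    refine ⟨insert j ∅, by simp, ?_⟩
    rw [SS_insert ρ ∅ j (Finset.notMem_empty j), SS_empty]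
    have h2 : ρ (Equiv.refl α) x = x := by
      have : (Equiv.refl α) = (1 : Equiv.Perm α) := rfl
      rw [this, map_one]
      rfl
    simp only [insert_empty_eq, Finset.sum_singleton, Equiv.swap_self]
    rw [h2]
    exact hx
  have hPn : ¬ P (n + 1) := by
    rintro ⟨L, hL, h⟩
    exact h (hvan L hL)
  obtain ⟨l, hl1, hln, hPl, hPl'⟩ : ∃ l, 1 ≤ l ∧ l ≤ n ∧ P l ∧ ¬ P (l + 1) := by
    by_contra hcon
    push Not at hcon
    have h1 : ∀ m, m ≤ n → P (m + 1) := by
      intro m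
      induction m with
      | zero => exact fun _ => hP1
      | succ m ih =>
        intro hm
        exact hcon (m + 1) (by omega) hm (ih (by omega))
    exact hPn (h1 n le_rfl)
  obtain ⟨L, hL, hy⟩ := hPl
  obtain ⟨y, hyd⟩ : ∃ y, y = SS ρ L x := ⟨_, rfl⟩
  rw [← hyd] at hy
  -- outside of `L`
  have hout : ∀ i, i ∉ L → ∑ j ∈ L, ρ (Equiv.swap i j) y + y ∈ R := by
    intro i hi
    have h1 : SS ρ (insert i L) x ∈ R := by
      by_contra hcon
      exact hPl' ⟨insert i L, by rw [Finset.card_insert_of_notMem hi, hL], hcon⟩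
    rw [SS_insert ρ L i hi, Finset.sum_insert hi, ← hyd, Equiv.swap_self] at h1
    have h2 : ρ (Equiv.refl α) y = y := by
      have : (Equiv.refl α) = (1 : Equiv.Perm α) := rfl
      rw [this, map_one]
      rfl
    rw [h2, add_comm] at h1
    have h3 : ∑ j ∈ L, ρ (Equiv.swap i j) y = ∑ j ∈ L, ρ (Equiv.swap j i) y :=
      Finset.sum_congr rfl fun j _ => by rw [Equiv.swap_comm]
    rw [h3]
    exact h1
  -- inside of `L`
  have hin : ∀ j ∈ L, ∀ i ∈ L, ρ (Equiv.swap i j) y = y := by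
    intro j hj i hi
    rw [hyd]
    exact SS_fix ρ L _ (swap_mem L i j hi hj) x
  have hA : ∑ j ∈ L, ∑ i ∈ Finset.univ.erase j, ρ (Equiv.swap i j) y -
      ((l : K) * (c : K)) • y ∈ R := by
    have h1 : ∑ j ∈ L, ∑ i ∈ Finset.univ.erase j, ρ (Equiv.swap i j) x -
        ((l : K) * (c : K)) • x ∈ R := by
      have h2 : ∑ j ∈ L, ∑ i ∈ Finset.univ.erase j, ρ (Equiv.swap i j) x -
          ((l : K) * (c : K)) • x =
          ∑ j ∈ L, (∑ i ∈ Finset.univ.erase j, ρ (Equiv.swap i j) x - (c : K) • x) := by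
        rw [Finset.sum_sub_distrib, Finset.sum_const, hL, ← Nat.cast_smul_eq_nsmul K, smul_smul]
      rw [h2]
      exact R.sum_mem fun j _ => hstar j
    have h3 := SS_mem ρ L R hR h1
    rw [SS_sub, SS_smul, ← SS_comm, ← hyd] at h3
    exact h3
  have hB : ∑ j ∈ L, ∑ i ∈ Finset.univ.erase j, ρ (Equiv.swap i j) y =
      ((l : K) * ((l : K) - 1)) • y + ∑ i ∈ Lᶜ, ∑ j ∈ L, ρ (Equiv.swap i j) y := by
    have h1 : ∀ j ∈ L, ∑ i ∈ Finset.univ.erase j, ρ (Equiv.swap i j) y =
        ((l : K) - 1) • y + ∑ i ∈ Lᶜ, ρ (Equiv.swap i j) y := by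
      intro j hj
      have h2 : (Finset.univ : Finset α).erase j = L.erase j ∪ Lᶜ := by
        ext i
        simp only [Finset.mem_erase, Finset.mem_univ, and_true, Finset.mem_union,
          Finset.mem_compl]
        constructor
        · intro h
          by_cases hi : i ∈ L
          · exact Or.inl ⟨h, hi⟩
          · exact Or.inr hi
        · rintro (h | h)
          · exact h.1
          · rintro rfl
            exact h hj
      have h3 : Disjoint (L.erase j) Lᶜ := by
        rw [Finset.disjoint_left]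
        intro i hi hi'
        exact (Finset.mem_compl.1 hi') (Finset.mem_of_mem_erase hi)
      rw [h2, Finset.sum_union h3]
      congr 1
      rw [Finset.sum_congr rfl fun i hi => hin j hj i (Finset.mem_of_mem_erase hi),
        Finset.sum_const, Finset.card_erase_of_mem hj, hL, ← Nat.cast_smul_eq_nsmul K,
        Nat.cast_sub hl1, Nat.cast_one]
    rw [Finset.sum_congr rfl h1, Finset.sum_add_distrib, Finset.sum_const, hL,
      ← Nat.cast_smul_eq_nsmul K, smul_smul, Finset.sum_comm]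
  have hC : ∑ i ∈ Lᶜ, ∑ j ∈ L, ρ (Equiv.swap i j) y +
      ((Fintype.card α : K) - l) • y ∈ R := by
    have h1 : ∑ i ∈ Lᶜ, ∑ j ∈ L, ρ (Equiv.swap i j) y + ((Fintype.card α : K) - l) • y =
        ∑ i ∈ Lᶜ, (∑ j ∈ L, ρ (Equiv.swap i j) y + y) := by
      rw [Finset.sum_add_distrib, Finset.sum_const, Finset.card_compl, hL,
        ← Nat.cast_smul_eq_nsmul K, Nat.cast_sub]
      rw [← hL]
      exact Finset.card_le_univ L
    rw [h1]
    exact R.sum_mem fun i hi => hout i (Finset.mem_compl.1 hi)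
  have hD : ((l : K) * (c : K) - (l : K) * ((l : K) - 1) + ((Fintype.card α : K) - l)) • y ∈ R := by
    have h1 := R.sub_mem hC hA
    rw [hB] at h1
    have h2 : ((l : K) * (c : K) - (l : K) * ((l : K) - 1) + ((Fintype.card α : K) - l)) • y =
        ∑ i ∈ Lᶜ, ∑ j ∈ L, ρ (Equiv.swap i j) y + ((Fintype.card α : K) - l) • y -
        (((l : K) * ((l : K) - 1)) • y + ∑ i ∈ Lᶜ, ∑ j ∈ L, ρ (Equiv.swap i j) y -
          ((l : K) * (c : K)) • y) := by
      rw [add_smul, sub_smul]
      abel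
    rw [h2]
    exact h1
  have hE : (l : K) * (c : K) - (l : K) * ((l : K) - 1) + ((Fintype.card α : K) - l) = 0 := by
    by_contra hcon
    exact hy ((R.smul_mem_iff hcon).1 hD)
  refine ⟨l, hl1, hln, ?_⟩
  have hF : ((Fintype.card α : ℤ) : K) = (((l : ℤ) * ((l : ℤ) - c) : ℤ) : K) := by
    push_cast
    linear_combination hE
  exact_mod_cast hF

end Pool.Agent.H62.FTM
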